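import Pool.Agent.H85.AK.Stmt

/-!
# S_place (for helper85, MP_cc0731_co): a complex number of infinite order has a nontrivial place
-/

set_option autoImplicit false

namespace Pool.Agent.H618.AKPlace

open Pool.Agent.H85.AK.Stmt
open NumberField

/-- the transcendental case -/
theorem trans {r : ℂ} (hr : Transcendental ℚ r) :
    ∃ (F : Type) (_ : Field F) (_ : Module F ℂ) (x : F), x ≠ 0 ∧ (∀ z : ℂ, x • z = r * z) ∧
    ((∃ v : Valuation F (WithZero (Multiplicative ℤ)), v x ≠ 1) ∨ ∃ σ : F →+* ℂ, ‖σ x‖ ≠ 1) := by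
  have hinj : Function.Injective (Polynomial.aeval r : Polynomial ℚ →ₐ[ℚ] ℂ).toRingHom :=
    transcendental_iff_injective.1 hr
  let f : RatFunc ℚ →+* ℂ := IsFractionRing.lift hinj
  have hf : f RatFunc.X = r := by
    rw [← RatFunc.algebraMap_X]
    show IsFractionRing.lift hinj _ = r
    rw [IsFractionRing.lift_algebraMap]
    exact Polynomial.aeval_X r
  refine ⟨RatFunc ℚ, inferInstance, Module.compHom ℂ f, RatFunc.X, RatFunc.X_ne_zero, ?_, ?_⟩
  · intro z
    show f RatFunc.X * z = r * z
    rw [hf]
  · left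
    refine ⟨(Polynomial.idealX ℚ).valuation (RatFunc ℚ), ?_⟩
    rw [Polynomial.valuation_X_eq_neg_one]
    intro h
    rw [← WithZero.exp_zero] at h
    have := WithZero.exp_injective h
    norm_num at this

theorem s_place : S_place := by
  intro r hr hn
  by_cases ht : Transcendental ℚ r
  · exact trans ht
  have hint : IsIntegral ℚ r := (not_not.1 ht : IsAlgebraic ℚ r).isIntegral
  have hfd : FiniteDimensional ℚ (IntermediateField.adjoin ℚ {r}) :=
    IntermediateField.adjoin.finiteDimensional hint
  have hnf : NumberField (IntermediateField.adjoin ℚ {r}) := ⟨⟩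
  have hgen : algebraMap (IntermediateField.adjoin ℚ {r}) ℂ
      (IntermediateField.AdjoinSimple.gen ℚ r) = r :=
    IntermediateField.AdjoinSimple.algebraMap_gen ℚ r
  refine ⟨IntermediateField.adjoin ℚ {r}, inferInstance, inferInstance,
    IntermediateField.AdjoinSimple.gen ℚ r, ?_, ?_, ?_⟩
  · intro h
    rw [h, map_zero] at hgen
    exact hr hgen.symm
  · intro z
    rw [Algebra.smul_def, hgen]
  · by_contra hcon
    push Not at hcon
    obtain ⟨hv, hσ⟩ := hcon
    have h1 := IsDedekindDomain.HeightOneSpectrum.mem_integers_of_valuation_le_one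
      (R := 𝓞 (IntermediateField.adjoin ℚ {r})) (IntermediateField.adjoin ℚ {r})
      (IntermediateField.AdjoinSimple.gen ℚ r) (fun v => (hv _).le)
    obtain ⟨y, hy⟩ := h1
    have h2 : IsIntegral ℤ (IntermediateField.AdjoinSimple.gen ℚ r) := by
      rw [← hy]
      exact y.isIntegral_coe
    obtain ⟨n, hn0, h3⟩ := NumberField.Embeddings.pow_eq_one_of_norm_eq_one _ ℂ h2 hσ
    apply hn n hn0
    rw [← hgen, ← map_pow, h3, map_one]

end Pool.Agent.H618.AKPlace
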